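import Mathlib

/-! Definitions: Cartier maps, strongly `F`-regular rings, `p`-families. -/

namespace Pool.Agent.R830.Fam

/-- `φ : R → R` is (the underlying map of) an element of `Hom_R(F^d_* R, R)`:
it is additive and `φ (r^(p^d) s) = r φ(s)`. -/
def IsCartier {R : Type} [CommRing R] (p d : ℕ) (φ : R →+ R) : Prop :=
  ∀ r s : R, φ (r ^ p ^ d * s) = r * φ s

/-- A ring of characteristic `p` is `F`-finite: the Frobenius map is finite. -/
def FFinite (p : ℕ) [Fact p.Prime] (R : Type) [CommRing R] [CharP R p] : Prop :=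
  (frobenius R p).Finite

/-- Strong `F`-regularity: for each `c` in no minimal prime there are `e ≥ 1` and
`ψ ∈ Hom_R(F^e_* R, R)` with `ψ(c) = 1`. -/
def StronglyFRegular (p : ℕ) (R : Type) [CommRing R] : Prop :=
  ∀ c : R, (∀ P ∈ minimalPrimes R, c ∉ P) →
    ∃ e : ℕ, 1 ≤ e ∧ ∃ ψ : R →+ R, IsCartier p e ψ ∧ ψ c = 1

/-- `b` is a `p`-family: `b_e^{[p]} ⊆ b_{e+1}` for all `e`. -/
def IsPFamily {R : Type} [CommRing R] (p : ℕ) (b : ℕ → Ideal R) : Prop :=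
  ∀ e : ℕ, Ideal.span {s : R | ∃ g ∈ b e, s = g ^ p} ≤ b (e + 1)

/-- `b` is `p`-stable: if `r^(p^f) ∈ b_{e+f}` for all large `f` then `r ∈ b_e`, and conversely. -/
def IsPStable {R : Type} [CommRing R] (p : ℕ) (b : ℕ → Ideal R) : Prop :=
  ∀ (e : ℕ) (r : R), (∃ F : ℕ, ∀ f : ℕ, F ≤ f → r ^ p ^ f ∈ b (e + f)) ↔ r ∈ b e

/-- Property (S): some surjective `φ ∈ Hom_R(F^d_* R, R)`, `d ≥ 1`, maps `b_{e+d}` into `b_e`
for all `e`. -/
def PropertyS {R : Type} [CommRing R] (p : ℕ) (b : ℕ → Ideal R) : Prop :=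
  ∃ d : ℕ, 1 ≤ d ∧ ∃ φ : R →+ R, IsCartier p d φ ∧ Function.Surjective φ ∧
    ∀ e : ℕ, ∀ s ∈ b (e + d), φ s ∈ b e

end Pool.Agent.R830.Fam
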