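import Mathlib
import Pool.Agent.R830.Fam.Defs

/-! `F_p[x_i]` is `F`-finite and strongly `F`-regular. -/

namespace Pool.Agent.R830.Fam

open MvPolynomial

variable (p : ℕ) [hp : Fact p.Prime] (k : ℕ)

theorem ffinite_of_finiteType (R : Type) [CommRing R] [CharP R p] [Algebra (ZMod p) R]
    [Algebra.FiniteType (ZMod p) R] : FFinite p R := by
  unfold FFinite
  apply RingHom.IsIntegral.to_finite
  · intro r
    refine ⟨Polynomial.X ^ p - Polynomial.C r,
      Polynomial.monic_X_pow_sub_C r hp.out.ne_zero, ?_⟩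
    simp [frobenius_def]
  · have h : ((frobenius R p).comp (algebraMap (ZMod p) R)).FiniteType := by
      have e : (frobenius R p).comp (algebraMap (ZMod p) R) = algebraMap (ZMod p) R :=
        Subsingleton.elim _ _
      rw [e, RingHom.finiteType_algebraMap]
      infer_instance
    exact RingHom.FiniteType.of_comp_finiteType h

/-- The value of the monomial projection on a monomial. -/
noncomputable def projAux (q : ℕ) (m0 m : Fin k →₀ ℕ) : MvPolynomial (Fin k) (ZMod p) :=
  open Classical in
  if h : ∃ n : Fin k →₀ ℕ, m = q • n + m0 then monomial h.choose 1 else 0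

theorem projAux_eq {q : ℕ} (hq : 0 < q) (m0 n : Fin k →₀ ℕ) :
    projAux p k q m0 (q • n + m0) = monomial n 1 := by
  unfold projAux
  have h : ∃ n' : Fin k →₀ ℕ, q • n + m0 = q • n' + m0 := ⟨n, rfl⟩
  rw [dif_pos h]
  have h2 := h.choose_spec
  have h3 : h.choose = n := by
    ext i
    have h4 := DFunLike.congr_fun h2 i
    simp only [Finsupp.add_apply, Finsupp.smul_apply, smul_eq_mul] at h4
    have h5 : q * n i = q * h.choose i := Nat.add_right_cancel h4
    exact (Nat.eq_of_mul_eq_mul_left hq h5).symm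
  rw [h3]

theorem projAux_ne {q : ℕ} (m0 m : Fin k →₀ ℕ) (h : ¬ ∃ n : Fin k →₀ ℕ, m = q • n + m0) :
    projAux p k q m0 m = 0 := by
  unfold projAux
  rw [dif_neg h]

theorem projAux_add {q : ℕ} (hq : 0 < q) (m0 : Fin k →₀ ℕ) (hm0 : ∀ i, m0 i < q)
    (a m : Fin k →₀ ℕ) :
    projAux p k q m0 (q • a + m) = monomial a 1 * projAux p k q m0 m := by
  by_cases h : ∃ n : Fin k →₀ ℕ, m = q • n + m0
  · obtain ⟨n, rfl⟩ := h
    rw [projAux_eq p k hq, ← add_assoc, ← smul_add, projAux_eq p k hq, monomial_mul, one_mul]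
  · rw [projAux_ne p k m0 m h, mul_zero]
    apply projAux_ne
    rintro ⟨n', hn'⟩
    apply h
    refine ⟨n' - a, ?_⟩
    ext i
    have h4 := DFunLike.congr_fun hn' i
    simp only [Finsupp.add_apply, Finsupp.smul_apply, smul_eq_mul, Finsupp.tsub_apply] at h4 ⊢
    have h5 := hm0 i
    have h6 : a i ≤ n' i := by
      by_contra hcon
      push Not at hcon
      have : q * (n' i + 1) ≤ q * a i := Nat.mul_le_mul_left q hcon
      rw [mul_add, mul_one] at this
      omega
    have h7 : q * n' i = q * (n' i - a i) + q * a i := by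
      rw [← mul_add, Nat.sub_add_cancel h6]
    omega

/-- The monomial projection. -/
noncomputable def proj (q : ℕ) (m0 : Fin k →₀ ℕ) :
    MvPolynomial (Fin k) (ZMod p) →ₗ[ZMod p] MvPolynomial (Fin k) (ZMod p) :=
  (basisMonomials (Fin k) (ZMod p)).constr (ZMod p) (projAux p k q m0)

theorem proj_monomial (q : ℕ) (m0 m : Fin k →₀ ℕ) (c : ZMod p) :
    proj p k q m0 (monomial m c) = c • projAux p k q m0 m := by
  have h : (monomial m c : MvPolynomial (Fin k) (ZMod p)) =
      c • basisMonomials (Fin k) (ZMod p) m := by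
    rw [coe_basisMonomials, smul_monomial, smul_eq_mul, mul_one]
  unfold proj
  rw [h, map_smul, Module.Basis.constr_basis]

theorem proj_cartier (e : ℕ) (m0 : Fin k →₀ ℕ) (hm0 : ∀ i, m0 i < p ^ e)
    (r s : MvPolynomial (Fin k) (ZMod p)) :
    proj p k (p ^ e) m0 (r ^ p ^ e * s) = r * proj p k (p ^ e) m0 s := by
  have hq : 0 < p ^ e := pow_pos hp.out.pos e
  induction r using MvPolynomial.induction_on' with
  | add r r' hr hr' =>
    rw [add_pow_char_pow, add_mul, map_add, hr, hr', add_mul]
  | monomial a c =>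
    induction s using MvPolynomial.induction_on' with
    | add s s' hs hs' => rw [mul_add, map_add, hs, hs', map_add, mul_add]
    | monomial m d =>
      rw [monomial_pow, ZMod.pow_card_pow, monomial_mul, proj_monomial, proj_monomial,
        projAux_add p k hq m0 hm0]
      have : (monomial a c : MvPolynomial (Fin k) (ZMod p)) = c • monomial a 1 := by
        rw [smul_monomial, smul_eq_mul, mul_one]
      rw [this, smul_mul_smul_comm]

theorem proj_self (q : ℕ) (hq : 0 < q) (m0 : Fin k →₀ ℕ) (c : MvPolynomial (Fin k) (ZMod p))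
    (hc : ∀ m ∈ c.support, ∀ i, m i < q) (hm0 : m0 ∈ c.support) :
    proj p k q m0 c = C (coeff m0 c) := by
  conv_lhs => rw [c.as_sum]
  rw [map_sum]
  rw [Finset.sum_eq_single m0]
  · rw [proj_monomial]
    have := projAux_eq p k hq m0 0
    rw [smul_zero, zero_add] at this
    rw [this, smul_monomial, smul_eq_mul, mul_one]
    rfl
  · intro m hm hne
    rw [proj_monomial, projAux_ne, smul_zero]
    rintro ⟨n, rfl⟩
    apply hne
    have : n = 0 := by
      ext i
      have h1 := hc _ hm i
      simp only [Finsupp.add_apply, Finsupp.smul_apply, smul_eq_mul] at h1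
      by_contra h2
      have h3 : 1 ≤ n i := Nat.one_le_iff_ne_zero.2 h2
      have : q * 1 ≤ q * n i := Nat.mul_le_mul_left q h3
      omega
    rw [this]; simp
  · intro h
    exact absurd hm0 h

theorem stronglyFRegular_mvPolynomial :
    StronglyFRegular p (MvPolynomial (Fin k) (ZMod p)) := by
  intro c hc
  have hc0 : c ≠ 0 := by
    intro h
    have hbot : (⊥ : Ideal (MvPolynomial (Fin k) (ZMod p))) ∈
        minimalPrimes (MvPolynomial (Fin k) (ZMod p)) := by
      rw [IsDomain.minimalPrimes_eq_singleton_bot]; rfl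
    exact hc _ hbot (by rw [h]; exact Ideal.zero_mem _)
  obtain ⟨m0, hm0⟩ : c.support.Nonempty := by
    rw [Finset.nonempty_iff_ne_empty, Ne, support_eq_empty]
    exact hc0
  have hdeg : ∀ m ∈ c.support, ∀ i, m i < p ^ (c.totalDegree + 1) := by
    intro m hm i
    have h1 : m i ≤ c.totalDegree := by
      calc m i ≤ c.degreeOf i := monomial_le_degreeOf i hm
        _ ≤ c.totalDegree := degreeOf_le_totalDegree c i
    have h2 : c.totalDegree + 1 < p ^ (c.totalDegree + 1) := Nat.lt_pow_self hp.out.one_lt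
    omega
  refine ⟨c.totalDegree + 1, by omega,
    ((LinearMap.mulLeft (ZMod p) (C (coeff m0 c)⁻¹)).comp
      (proj p k (p ^ (c.totalDegree + 1)) m0)).toAddMonoidHom, ?_, ?_⟩
  · intro r s
    show C (coeff m0 c)⁻¹ * proj p k (p ^ (c.totalDegree + 1)) m0 (r ^ _ * s) =
      r * (C (coeff m0 c)⁻¹ * proj p k (p ^ (c.totalDegree + 1)) m0 s)
    rw [proj_cartier p k _ m0 (hdeg m0 hm0)]
    ring
  · show C (coeff m0 c)⁻¹ * proj p k (p ^ (c.totalDegree + 1)) m0 c = 1
    rw [proj_self p k _ (pow_pos hp.out.pos _) m0 c hdeg hm0, ← C_mul,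
      inv_mul_cancel₀ (mem_support_iff.1 hm0), C_1]

end Pool.Agent.R830.Fam
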