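import Mathlib
import Pool.Agent.R830.Fam.Defs
import Pool.Agent.R830.Fam.Poly

/-! The `p`-family `((x y (x+y))^⌈p^e/4⌉)`. -/

namespace Pool.Agent.R830.Fam

open MvPolynomial

variable (p : ℕ) [hp : Fact p.Prime]

/-- `F_p[x,y]` -/
abbrev S := MvPolynomial (Fin 2) (ZMod p)

/-- `xy(x+y)` -/
noncomputable def gg : S p := X 0 * X 1 * (X 0 + X 1)

/-- `⌈p^e/4⌉` -/
def mm (e : ℕ) : ℕ := (p ^ e + 3) / 4

/-- the family -/
noncomputable def bb (e : ℕ) : Ideal (S p) := Ideal.span {gg p ^ mm p e}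

omit hp in
theorem mm_le_iff (e a : ℕ) : mm p e ≤ a ↔ p ^ e ≤ 4 * a := by
  unfold mm
  omega

theorem mm_mul (e f : ℕ) : mm p (e + f) ≤ mm p e * p ^ f := by
  rw [mm_le_iff, pow_add, ← mul_assoc]
  exact Nat.mul_le_mul_right _ ((mm_le_iff p e _).1 le_rfl)

theorem pfamily : IsPFamily p (bb p) := by
  intro e
  rw [Ideal.span_le]
  rintro s ⟨g, hg, rfl⟩
  rw [bb, Ideal.mem_span_singleton] at hg
  rw [SetLike.mem_coe, bb, Ideal.mem_span_singleton]
  have h1 := pow_dvd_pow_of_dvd hg p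
  rw [← pow_mul] at h1
  refine (pow_dvd_pow _ ?_).trans h1
  simpa using mm_mul p e 1

/-- the automorphism `x ↦ x + y` -/
noncomputable def shear : S p ≃ₐ[ZMod p] S p :=
  AlgEquiv.ofAlgHom (aeval ![X 0 + X 1, X 1]) (aeval ![X 0 - X 1, X 1])
    (by ext i; fin_cases i <;> simp) (by ext i; fin_cases i <;> simp)

theorem prime_add : Prime (X 0 + X 1 : S p) := by
  have h : Prime (X 0 : S p) := X_prime
  have h2 := (MulEquiv.prime_iff (shear p)).2 h
  have : shear p (X 0) = X 0 + X 1 := by simp [shear]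
  rwa [this] at h2

/-- `p`-stability for one prime factor -/
theorem stable_prime (e : ℕ) (r l : S p) (hl : Prime l) (f : ℕ)
    (h : l ^ mm p (e + f) ∣ r ^ p ^ f) : l ^ mm p e ∣ r := by
  by_cases hr : r = 0
  · rw [hr]; exact dvd_zero _
  obtain ⟨a, r', hr', rfl⟩ := WfDvdMonoid.max_power_factor hr hl.irreducible
  have h1 : mm p (e + f) ≤ a * p ^ f := by
    rw [mul_pow, ← pow_mul] at h
    by_contra hcon
    push Not at hcon
    have h2 : l ^ (a * p ^ f) * l ∣ l ^ (a * p ^ f) * r' ^ p ^ f := by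
      rw [← pow_succ]
      exact (pow_dvd_pow l hcon).trans h
    have h3 := (mul_dvd_mul_iff_left (pow_ne_zero _ hl.ne_zero)).1 h2
    exact hr' (hl.dvd_of_dvd_pow h3)
  rw [mm_le_iff, pow_add, ← mul_assoc] at h1
  have h2 : p ^ e ≤ 4 * a := Nat.le_of_mul_le_mul_right h1 (pow_pos hp.out.pos f)
  exact (pow_dvd_pow l ((mm_le_iff p e a).2 h2)).trans (dvd_mul_right _ _)

theorem relPrime_XX (a b : ℕ) : IsRelPrime ((X 0 : S p) ^ a) ((X 1 : S p) ^ b) := by
  apply IsRelPrime.pow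
  refine (Irreducible.isRelPrime_iff_not_dvd (X_prime (R := ZMod p)).irreducible).2 ?_
  rw [X_dvd_X]
  simp

theorem not_dvd_add (i : Fin 2) : ¬ (X i : S p) ∣ (X 0 + X 1 : S p) := by
  intro h
  fin_cases i
  · have h1 : (X 0 : S p) ∣ X 1 := (dvd_add_right (dvd_refl _)).1 h
    rw [X_dvd_X] at h1
    simp at h1
  · have h1 : (X 1 : S p) ∣ X 0 := (dvd_add_left (dvd_refl _)).1 h
    rw [X_dvd_X] at h1
    simp at h1

theorem relPrime_add (i : Fin 2) (a b : ℕ) :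
    IsRelPrime ((X i : S p) ^ a) ((X 0 + X 1 : S p) ^ b) := by
  apply IsRelPrime.pow
  exact (Irreducible.isRelPrime_iff_not_dvd (X_prime (R := ZMod p)).irreducible).2
    (not_dvd_add p i)

theorem gg_pow_dvd (m : ℕ) (r : S p) (h0 : X 0 ^ m ∣ r) (h1 : X 1 ^ m ∣ r)
    (h2 : (X 0 + X 1) ^ m ∣ r) : gg p ^ m ∣ r := by
  unfold gg
  rw [mul_pow, mul_pow]
  apply IsRelPrime.mul_dvd
  · apply IsRelPrime.mul_left
    · exact relPrime_add p 0 m m
    · exact relPrime_add p 1 m m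
  · exact IsRelPrime.mul_dvd (relPrime_XX p m m) h0 h1
  · exact h2

theorem pstable : IsPStable p (bb p) := by
  intro e r
  constructor
  · rintro ⟨F, hF⟩
    have h := hF F le_rfl
    rw [bb, Ideal.mem_span_singleton] at h ⊢
    have h' : ∀ l : S p, l ∣ gg p → l ^ mm p (e + F) ∣ r ^ p ^ F := fun l hl =>
      (pow_dvd_pow_of_dvd hl _).trans h
    apply gg_pow_dvd
    · exact stable_prime p e r _ X_prime F (h' _ ⟨X 1 * (X 0 + X 1), by unfold gg; ring⟩)
    · exact stable_prime p e r _ X_prime F (h' _ ⟨X 0 * (X 0 + X 1), by unfold gg; ring⟩)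
    · exact stable_prime p e r _ (prime_add p) F (h' _ ⟨X 0 * X 1, by unfold gg; ring⟩)
  · intro h
    refine ⟨0, fun f _ => ?_⟩
    rw [bb, Ideal.mem_span_singleton] at h ⊢
    have h1 := pow_dvd_pow_of_dvd h (p ^ f)
    rw [← pow_mul] at h1
    exact (pow_dvd_pow _ (mm_mul p e f)).trans h1

/-- `g^(q - ⌈q/4⌉) ∈ (x^q, y^q)` -/
theorem gg_pow_mem (d : ℕ) (hd : 1 ≤ d) :
    ∃ a b : S p, gg p ^ (p ^ d - mm p d) = X 0 ^ p ^ d * a + X 1 ^ p ^ d * b := by
  have hq2 : 2 ≤ p ^ d := le_trans hp.out.two_le (Nat.le_self_pow (by omega) p)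
  have hN : 2 * p ^ d ≤ 3 * (p ^ d - mm p d) + 1 := by
    unfold mm
    omega
  generalize p ^ d = q at *
  generalize q - mm p d = N at *
  have hmem : gg p ^ N ∈ Ideal.span {(X 0 : S p) ^ q, (X 1 : S p) ^ q} := by
    unfold gg
    rw [mul_pow, mul_pow, add_pow, Finset.mul_sum]
    apply Ideal.sum_mem
    intro i hi
    rw [Finset.mem_range] at hi
    have e : (X 0 : S p) ^ N * X 1 ^ N * (X 0 ^ i * X 1 ^ (N - i) * ((N.choose i : ℕ) : S p)) =
        X 0 ^ (N + i) * X 1 ^ (N + (N - i)) * ((N.choose i : ℕ) : S p) := by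
      rw [pow_add, pow_add]; ring
    rw [e]
    apply Ideal.mul_mem_right
    by_cases h : q ≤ N + i
    · apply Ideal.mul_mem_right
      exact Ideal.mem_of_dvd _ (pow_dvd_pow _ h) (Ideal.subset_span (by simp))
    · apply Ideal.mul_mem_left
      refine Ideal.mem_of_dvd _ (pow_dvd_pow _ (?_ : q ≤ _)) (Ideal.subset_span (by simp))
      omega
  rw [Ideal.mem_span_pair] at hmem
  obtain ⟨a, b, hab⟩ := hmem
  exact ⟨a, b, by rw [← hab]; ring⟩

theorem not_propertyS : ¬ PropertyS p (bb p) := by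
  rintro ⟨d, hd, φ, hφ, hsurj, hb⟩
  obtain ⟨a, b, hab⟩ := gg_pow_mem p d hd
  have hmd : mm p d ≤ p ^ d := by
    rw [mm_le_iff]; omega
  have hg0 : gg p ≠ 0 := by
    unfold gg
    exact mul_ne_zero (mul_ne_zero (X_ne_zero 0) (X_ne_zero 1)) (prime_add p).ne_zero
  have hm0 : mm p 0 = 1 := by unfold mm; norm_num
  have hdiv : ∀ t : S p, ∃ c, φ (gg p ^ mm p d * t) = gg p * c := by
    intro t
    have h1 := hb 0 (gg p ^ mm p d * t) (by
      rw [bb, zero_add]
      exact Ideal.mul_mem_right _ _ (Ideal.mem_span_singleton_self _))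
    rw [bb, hm0, pow_one, Ideal.mem_span_singleton] at h1
    exact h1
  obtain ⟨s, hs⟩ := hsurj 1
  obtain ⟨c1, hc1⟩ := hdiv (a * s)
  obtain ⟨c2, hc2⟩ := hdiv (b * s)
  have h1 : gg p ^ p ^ d * s =
      X 0 ^ p ^ d * (gg p ^ mm p d * (a * s)) + X 1 ^ p ^ d * (gg p ^ mm p d * (b * s)) := by
    have : gg p ^ p ^ d = gg p ^ mm p d * gg p ^ (p ^ d - mm p d) := by
      rw [← pow_add, Nat.add_sub_cancel' hmd]
    rw [this, hab]; ring
  have h2 := congrArg φ h1
  rw [map_add, hφ, hφ, hφ, hs, hc1, hc2] at h2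
  have h3 : (1 : S p) = X 0 * c1 + X 1 * c2 := by
    apply mul_left_cancel₀ hg0
    rw [h2]; ring
  have h4 := congrArg (MvPolynomial.aeval (fun _ => (0 : ZMod p))) h3
  simp at h4

end Pool.Agent.R830.Fam
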